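import Mathlib

/-!
# Circular colourings and circular chromatic number below three
-/

set_option autoImplicit false

namespace Pool.Agent.X65.CC

/-- The map `c` is a `(p, q)`-colouring of `G`: the colours are in `{0, ..., p-1}` and the colours
of adjacent vertices differ by at least `q` and at most `p - q`. -/
def IsPQ {V : Type} (G : SimpleGraph V) (p q : ℕ) (c : V → ℕ) : Prop :=
  (∀ v, c v < p) ∧ ∀ u v, G.Adj u v → q ≤ Nat.dist (c u) (c v) ∧ Nat.dist (c u) (c v) ≤ p - q

/-- The circular chromatic number: the infimum of the fractions `p / q`, `p ≥ 2 q ≥ 2`, for which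
there is a `(p, q)`-colouring. -/
noncomputable def circ {V : Type} (G : SimpleGraph V) : ℝ :=
  sInf {r : ℝ | ∃ p q : ℕ, 1 ≤ q ∧ 2 * q ≤ p ∧ (∃ c : V → ℕ, IsPQ G p q c) ∧ r = p / q}

section

variable {V : Type} {G : SimpleGraph V}

theorem bdd : BddBelow {r : ℝ | ∃ p q : ℕ, 1 ≤ q ∧ 2 * q ≤ p ∧ (∃ c : V → ℕ, IsPQ G p q c) ∧
    r = p / q} := by
  refine ⟨0, ?_⟩
  rintro r ⟨p, q, _, _, _, rfl⟩
  positivity

theorem nonempty_fin {n : ℕ} (G : SimpleGraph (Fin n)) :
    {r : ℝ | ∃ p q : ℕ, 1 ≤ q ∧ 2 * q ≤ p ∧ (∃ c : Fin n → ℕ, IsPQ G p q c) ∧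
    r = p / q}.Nonempty := by
  refine ⟨_, n + 2, 1, le_rfl, by omega, ⟨fun i => i, ?_, ?_⟩, rfl⟩
  · intro v
    have := v.isLt
    simp only
    omega
  · intro u v huv
    have h1 : (u : ℕ) ≠ v := fun h => huv.ne (Fin.ext h)
    have h2 := u.isLt
    have h3 := v.isLt
    unfold Nat.dist
    simp only
    omega

theorem circ_lt_iff {n : ℕ} (G : SimpleGraph (Fin n)) : circ G < 3 ↔
    ∃ p q : ℕ, 1 ≤ q ∧ 2 * q ≤ p ∧ p < 3 * q ∧ ∃ c : Fin n → ℕ, IsPQ G p q c := by
  constructor
  · intro h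
    obtain ⟨r, ⟨p, q, hq, hp, hc, rfl⟩, hr⟩ := exists_lt_of_csInf_lt (nonempty_fin G) h
    refine ⟨p, q, hq, hp, ?_, hc⟩
    have hq' : (0 : ℝ) < q := by exact_mod_cast hq
    rw [div_lt_iff₀ hq'] at hr
    exact_mod_cast hr
  · rintro ⟨p, q, hq, hp, h3, hc⟩
    refine csInf_lt_of_lt bdd ⟨p, q, hq, hp, hc, rfl⟩ ?_
    have hq' : (0 : ℝ) < q := by exact_mod_cast hq
    rw [div_lt_iff₀ hq']
    exact_mod_cast h3

theorem circ_le {p q : ℕ} (hq : 1 ≤ q) (hp : 2 * q ≤ p) {c : V → ℕ} (hc : IsPQ G p q c) :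
    circ G ≤ p / q := csInf_le bdd ⟨p, q, hq, hp, ⟨c, hc⟩, rfl⟩

end

/-- Colourings with many colours suffice. -/
theorem normal {n : ℕ} (G : SimpleGraph (Fin n)) :
    (∃ p q : ℕ, 1 ≤ q ∧ 2 * q ≤ p ∧ p < 3 * q ∧ ∃ c : Fin n → ℕ, IsPQ G p q c) ↔
    ∃ c : Fin n → ℕ, IsPQ G (3 * n + 2) (n + 1) c := by
  constructor
  · rintro ⟨p, q, hq, hp, h3, c, hc, hadj⟩
    set L : Fin n → ℕ := fun v => (Finset.univ.filter fun w => c w % q < c v % q).card with hL
    have hLn : ∀ v, L v < n := by
      intro v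
      have h1 : (Finset.univ.filter fun w => c w % q < c v % q) ⊂ Finset.univ := by
        refine Finset.filter_ssubset.2 ⟨v, Finset.mem_univ _, lt_irrefl _⟩
      have h2 := Finset.card_lt_card h1
      rwa [Finset.card_univ, Fintype.card_fin] at h2
    have hmono : ∀ u v, c u % q ≤ c v % q → L u ≤ L v := by
      intro u v h
      refine Finset.card_le_card ?_
      intro w hw
      rw [Finset.mem_filter] at hw ⊢
      exact ⟨hw.1, hw.2.trans_le h⟩
    have hstrict : ∀ u v, c u % q < c v % q → L u < L v := by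
      intro u v h
      refine Finset.card_lt_card ?_
      rw [Finset.ssubset_iff_of_subset]
      · exact ⟨u, Finset.mem_filter.2 ⟨Finset.mem_univ _, h⟩, by simp⟩
      · intro w hw
        rw [Finset.mem_filter] at hw ⊢
        exact ⟨hw.1, hw.2.trans h⟩
    have hdiv : ∀ v, q * (c v / q) + c v % q = c v := fun v => Nat.div_add_mod _ _
    have hmod : ∀ v, c v % q < q := fun v => Nat.mod_lt _ hq
    have hk : ∀ v, c v / q ≤ 2 := by
      intro v
      have h1 := hc v
      rw [← Nat.lt_succ_iff, Nat.div_lt_iff_lt_mul hq]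
      omega
    have key : ∀ u v, G.Adj u v → c u < c v →
        n + 1 ≤ Nat.dist ((n + 1) * (c u / q) + L u) ((n + 1) * (c v / q) + L v) ∧
        Nat.dist ((n + 1) * (c u / q) + L u) ((n + 1) * (c v / q) + L v) ≤
          3 * n + 2 - (n + 1) := by
      intro u v huv hlt
      obtain ⟨h1, h2⟩ := hadj u v huv
      unfold Nat.dist at h1 h2
      have e1 := hdiv u
      have e2 := hdiv v
      have m1 := hmod u
      have m2 := hmod v
      have k2 := hk v
      have l1 := hLn u
      have l2 := hLn v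
      have hkk : c u / q < c v / q := by
        by_contra hcon
        have h4 : c v / q ≤ c u / q := not_lt.1 hcon
        have h5 := Nat.mul_le_mul_left q h4
        omega
      have hcase : c v / q = c u / q + 1 ∨ (c u / q = 0 ∧ c v / q = 2) := by
        clear_value L
        generalize c v / q = y at hkk k2
        generalize c u / q = x at hkk
        omega
      rcases hcase with h | ⟨h, h'⟩
      · have h6 : c u % q ≤ c v % q := by
          rw [h, mul_add, mul_one] at e2
          omega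
        have h7 := hmono u v h6
        rw [h, mul_add, mul_one]
        unfold Nat.dist
        omega
      · have h6 : c v % q < c u % q := by
          rw [h] at e1
          rw [h'] at e2
          omega
        have h7 := hstrict v u h6
        rw [h, h']
        unfold Nat.dist
        omega
    refine ⟨fun v => (n + 1) * (c v / q) + L v, ?_, ?_⟩
    · intro v
      have h1 := hk v
      have h2 := hLn v
      have h3 := Nat.mul_le_mul_left (n + 1) h1
      simp only
      omega
    · intro u v huv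
      have hne : c u ≠ c v := by
        intro he
        obtain ⟨h1, _⟩ := hadj u v huv
        rw [he, Nat.dist_self] at h1
        omega
      rcases Nat.lt_or_gt_of_ne hne with hlt | hlt
      · exact key u v huv hlt
      · have := key v u huv.symm hlt
        rwa [Nat.dist_comm] at this
  · rintro ⟨c, hc⟩
    exact ⟨3 * n + 2, n + 1, by omega, by omega, by omega, c, hc⟩

/-! ### Windings -/

/-- The pair of numbers `x`, `y` is allowed on an edge. -/
def Gd (p q x y : ℕ) : Prop := x < p ∧ y < p ∧ q ≤ Nat.dist x y ∧ Nat.dist x y ≤ p - q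

/-- the winding indicator of a step from `x` to `y` -/
def wd (x y : ℕ) : ℤ := if x ≤ y then 0 else 1

section

variable {p q : ℕ}

theorem Gd.symm {x y : ℕ} (h : Gd p q x y) : Gd p q y x := by
  obtain ⟨h1, h2, h3, h4⟩ := h
  refine ⟨h2, h1, ?_, ?_⟩
  · rwa [Nat.dist_comm]
  · rwa [Nat.dist_comm]

theorem Gd.bounds {x y : ℕ} (h : Gd p q x y) :
    (q : ℤ) ≤ (y : ℤ) - x + wd x y * p ∧ (y : ℤ) - x + wd x y * p ≤ p - q := by
  obtain ⟨h1, h2, h3, h4⟩ := h
  unfold Nat.dist at h3 h4
  unfold wd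
  split_ifs with hxy
  · omega
  · omega

theorem Gd.anti (hq : 1 ≤ q) {x y : ℕ} (h : Gd p q x y) : wd x y + wd y x = 1 := by
  obtain ⟨_, _, h3, _⟩ := h
  unfold Nat.dist at h3
  unfold wd
  split_ifs <;> omega

theorem cyc4 (hq : 1 ≤ q) (h3 : p < 3 * q) {a b c d : ℕ} (h1 : Gd p q a b) (h2 : Gd p q b c)
    (h4 : Gd p q c d) (h5 : Gd p q d a) : wd a b + wd b c + wd c d + wd d a = 2 := by
  have b1 := h1.bounds
  have b2 := h2.bounds
  have b3 := h4.bounds
  have b4 := h5.bounds
  have hq' : (1 : ℤ) ≤ q := by exact_mod_cast hq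
  have h3' : (p : ℤ) < 3 * q := by exact_mod_cast h3
  have hp' : (0 : ℤ) ≤ p := by positivity
  set S := wd a b + wd b c + wd c d + wd d a with hS
  have e1 : S * p = wd a b * p + wd b c * p + wd c d * p + wd d a * p := by rw [hS]; ring
  have hlow : 4 * (q : ℤ) ≤ S * p := by rw [e1]; linarith [b1.1, b2.1, b3.1, b4.1]
  have hup : S * p ≤ 4 * (p - q) := by rw [e1]; linarith [b1.2, b2.2, b3.2, b4.2]
  have c1 : 1 < S := by
    by_contra hcon
    have := mul_le_mul_of_nonneg_right (not_lt.1 hcon) hp'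
    linarith
  have c2 : S < 3 := by
    by_contra hcon
    have := mul_le_mul_of_nonneg_right (not_lt.1 hcon) hp'
    linarith
  omega

theorem cyc5 (hq : 1 ≤ q) (h3 : p < 3 * q) {a b c d e : ℕ} (h1 : Gd p q a b) (h2 : Gd p q b c)
    (h4 : Gd p q c d) (h5 : Gd p q d e) (h6 : Gd p q e a) :
    wd a b + wd b c + wd c d + wd d e + wd e a = 2 ∨
      wd a b + wd b c + wd c d + wd d e + wd e a = 3 := by
  have b1 := h1.bounds
  have b2 := h2.bounds
  have b3 := h4.bounds
  have b4 := h5.bounds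
  have b5 := h6.bounds
  have hq' : (1 : ℤ) ≤ q := by exact_mod_cast hq
  have h3' : (p : ℤ) < 3 * q := by exact_mod_cast h3
  have hp' : (0 : ℤ) ≤ p := by positivity
  set S := wd a b + wd b c + wd c d + wd d e + wd e a with hS
  have e1 : S * p = wd a b * p + wd b c * p + wd c d * p + wd d e * p + wd e a * p := by
    rw [hS]; ring
  have hlow : 5 * (q : ℤ) ≤ S * p := by rw [e1]; linarith [b1.1, b2.1, b3.1, b4.1, b5.1]
  have hup : S * p ≤ 5 * (p - q) := by rw [e1]; linarith [b1.2, b2.2, b3.2, b4.2, b5.2]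
  have c1 : 1 < S := by
    by_contra hcon
    have := mul_le_mul_of_nonneg_right (not_lt.1 hcon) hp'
    linarith
  have c2 : S < 4 := by
    by_contra hcon
    have := mul_le_mul_of_nonneg_right (not_lt.1 hcon) hp'
    linarith
  omega

theorem cyc9 (hq : 1 ≤ q) (h3 : p < 3 * q) {a b c d e f g h i : ℕ} (h1 : Gd p q a b)
    (h2 : Gd p q b c) (h4 : Gd p q c d) (h5 : Gd p q d e) (h6 : Gd p q e f) (h7 : Gd p q f g)
    (h8 : Gd p q g h) (h9 : Gd p q h i) (h10 : Gd p q i a) :
    wd a b + wd b c + wd c d + wd d e + wd e f + wd f g + wd g h + wd h i + wd i a = 4 ∨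
      wd a b + wd b c + wd c d + wd d e + wd e f + wd f g + wd g h + wd h i + wd i a = 5 := by
  have b1 := h1.bounds
  have b2 := h2.bounds
  have b3 := h4.bounds
  have b4 := h5.bounds
  have b5 := h6.bounds
  have b6 := h7.bounds
  have b7 := h8.bounds
  have b8 := h9.bounds
  have b9 := h10.bounds
  have hq' : (1 : ℤ) ≤ q := by exact_mod_cast hq
  have h3' : (p : ℤ) < 3 * q := by exact_mod_cast h3
  have hp' : (0 : ℤ) ≤ p := by positivity
  set S := wd a b + wd b c + wd c d + wd d e + wd e f + wd f g + wd g h + wd h i + wd i a with hS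
  have e1 : S * p = wd a b * p + wd b c * p + wd c d * p + wd d e * p + wd e f * p +
      wd f g * p + wd g h * p + wd h i * p + wd i a * p := by
    rw [hS]; ring
  have hlow : 9 * (q : ℤ) ≤ S * p := by
    rw [e1]; linarith [b1.1, b2.1, b3.1, b4.1, b5.1, b6.1, b7.1, b8.1, b9.1]
  have hup : S * p ≤ 9 * (p - q) := by
    rw [e1]; linarith [b1.2, b2.2, b3.2, b4.2, b5.2, b6.2, b7.2, b8.2, b9.2]
  have c1 : 3 < S := by
    by_contra hcon
    have := mul_le_mul_of_nonneg_right (not_lt.1 hcon) hp'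
    linarith
  have c2 : S < 6 := by
    by_contra hcon
    have := mul_le_mul_of_nonneg_right (not_lt.1 hcon) hp'
    linarith
  omega

/-- the winding number (2 or 3) of a pentagon -/
def w5 (a b c d e : ℕ) : ℤ := wd a b + wd b c + wd c d + wd d e + wd e a

/-- Two pentagons joined by a prism have the same winding. -/
theorem prism (hq : 1 ≤ q) (h3 : p < 3 * q) {a b c d e a' b' c' d' e' : ℕ}
    (h1 : Gd p q a b) (h2 : Gd p q b c) (h4 : Gd p q c d) (h5 : Gd p q d e) (h6 : Gd p q e a)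
    (h1' : Gd p q a' b') (h2' : Gd p q b' c') (h4' : Gd p q c' d') (h5' : Gd p q d' e')
    (h6' : Gd p q e' a') (k1 : Gd p q a a') (k2 : Gd p q b b') (k3 : Gd p q c c')
    (k4 : Gd p q d d') (k5 : Gd p q e e') : w5 a b c d e = w5 a' b' c' d' e' := by
  have s1 := cyc4 hq h3 h1 k2 h1'.symm k1.symm
  have s2 := cyc4 hq h3 h2 k3 h2'.symm k2.symm
  have s3 := cyc4 hq h3 h4 k4 h4'.symm k3.symm
  have s4 := cyc4 hq h3 h5 k5 h5'.symm k4.symm
  have s5 := cyc4 hq h3 h6 k1 h6'.symm k5.symm
  have t1 := h1'.anti hq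
  have t2 := h2'.anti hq
  have t3 := h4'.anti hq
  have t4 := h5'.anti hq
  have t5 := h6'.anti hq
  have r1 := k1.anti hq
  have r2 := k2.anti hq
  have r3 := k3.anti hq
  have r4 := k4.anti hq
  have r5 := k5.anti hq
  unfold w5
  linarith

/-- The three pentagons around a vertex do not have the same winding. -/
theorem three (hq : 1 ≤ q) (h3 : p < 3 * q) {o a b c d e f g h i : ℕ}
    (o1 : Gd p q o a) (o2 : Gd p q o d) (o3 : Gd p q o g) (h1 : Gd p q a b)
    (h2 : Gd p q b c) (h4 : Gd p q c d) (h5 : Gd p q d e) (h6 : Gd p q e f) (h7 : Gd p q f g)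
    (h8 : Gd p q g h) (h9 : Gd p q h i) (h10 : Gd p q i a) :
    ¬ (w5 o a b c d = w5 o d e f g ∧ w5 o d e f g = w5 o g h i a) := by
  have s := cyc9 hq h3 h1 h2 h4 h5 h6 h7 h8 h9 h10
  have s1 := cyc5 hq h3 o1 h1 h2 h4 o2.symm
  have r1 := o1.anti hq
  have r2 := o2.anti hq
  have r3 := o3.anti hq
  unfold w5
  rintro ⟨e1, e2⟩
  rcases s with s | s <;> rcases s1 with s1 | s1 <;> linarith

end

end Pool.Agent.X65.CC
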