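import Pool.Agent.X65.CC.Red

/-!
# The reduction is computable in polynomial time; membership in NP
-/

set_option autoImplicit false

namespace Pool.Agent.X65.CC

open Pool.Agent.NPC Pool.Agent.NPC.R671 Pool.Agent.X130 Pool.Agent.H671R2.Ord
open Pool.Agent.H671R2.OOF (getD_ofFn)

section

variable {α : Type} [TEnc α]

theorem poly_cla {φ : α → List (ℕ × ℕ × ℕ)} {j : α → ℕ} (hφ : NPC.Poly φ) (hj : NPC.Poly j) :
    NPC.Poly (fun x => cla (φ x) (j x)) := by
  unfold cla
  fun_prop

attribute [local fun_prop] poly_cla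

theorem poly_ad0 {φ : α → List (ℕ × ℕ × ℕ)} {a b : α → Lb} (hφ : NPC.Poly φ) (ha : NPC.Poly a)
    (hb : NPC.Poly b) : NPC.Poly (fun x => ad0 (φ x) (a x) (b x)) := by
  have h5 : NPC.Poly (fun _ : α => E5) := NPC.Poly.const _
  have h0 : NPC.Poly (fun _ : α => E0) := NPC.Poly.const _
  have h1 : NPC.Poly (fun _ : α => Q1) := NPC.Poly.const _
  have h2 : NPC.Poly (fun _ : α => Q2) := NPC.Poly.const _
  have h3 : NPC.Poly (fun _ : α => Q3) := NPC.Poly.const _
  unfold ad0
  fun_prop

attribute [local fun_prop] poly_ad0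

theorem poly_ad {φ : α → List (ℕ × ℕ × ℕ)} {a b : α → Lb} (hφ : NPC.Poly φ) (ha : NPC.Poly a)
    (hb : NPC.Poly b) : NPC.Poly (fun x => ad (φ x) (a x) (b x)) := by
  unfold ad
  fun_prop

end

theorem poly_vs : NPC.Poly vs := by
  have hr : NPC.Poly (fun φ : List (ℕ × ℕ × ℕ) => List.range (3 * φ.length)) :=
    ((UPoly.const 3).mul (UPoly.length NPC.Poly.id)).range
  have hr' : NPC.Poly (fun φ : List (ℕ × ℕ × ℕ) => List.range φ.length) :=
    (UPoly.length NPC.Poly.id).range
  unfold vs
  refine NPC.Poly.append ?_ ?_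
  · refine NPC.Poly.flatMap (F := fun (_ : List (ℕ × ℕ × ℕ)) x =>
      (List.range 5).map fun i => (0, x, i)) hr ?_
    fun_prop
  · refine NPC.Poly.flatMap (F := fun (_ : List (ℕ × ℕ × ℕ)) j =>
      (List.range 10).map fun k => (1, j, k)) hr' ?_
    fun_prop

theorem poly_mat : NPC.Poly (fun φ => adjMatrix (gr φ)) := by
  have h1 : NPC.Poly (fun φ : List (ℕ × ℕ × ℕ) =>
      (vs φ).map (fun u => (vs φ).map (fun w => ad φ u w))) := by
    refine NPC.Poly.map (F := fun φ u => (vs φ).map (fun w => ad φ u w)) poly_vs ?_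
    refine NPC.Poly.map (l := fun x : List (ℕ × ℕ × ℕ) × Lb => vs x.1)
      (F := fun x w => ad x.1 x.2 w) (poly_vs.comp (NPC.Poly.fst NPC.Poly.id)) ?_
    exact poly_ad (by fun_prop) (by fun_prop) (by fun_prop)
  exact h1.congr fun φ => (adjMatrix_listGraph _ _ _ _).symm

/-! ### Membership in NP -/

/-- The decision problem: is the circular chromatic number of the graph with adjacency matrix `M`
less than `3`? -/
def CircLtThree (M : List (List Bool)) : Prop :=
  ∃ (n : ℕ) (G : SimpleGraph (Fin n)), adjMatrix G = M ∧ circ G < 3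

/-- check of the colours on the edges -/
def chk (M : List (List Bool)) (l : List ℕ) : Bool :=
  (List.range M.length).all (fun i => (List.range M.length).all (fun j =>
    !(me M i j) || (decide (M.length + 1 ≤ (l.getD i 0 - l.getD j 0) + (l.getD j 0 - l.getD i 0)) &&
      decide ((l.getD i 0 - l.getD j 0) + (l.getD j 0 - l.getD i 0) ≤
        3 * M.length + 2 - (M.length + 1)))))

/-- the verifier -/
def Rg (x : List (List Bool) × List ℕ) : Bool :=
  wf x.1 && (decide (x.2.length = x.1.length) &&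
    (x.2.all (fun a => decide (a < 3 * x.1.length + 2)) && chk x.1 x.2))

theorem chk_iff {n : ℕ} (G : SimpleGraph (Fin n)) (f : Fin n → ℕ) (l : List ℕ)
    (hl : ∀ i : Fin n, l.getD i 0 = f i) :
    chk (adjMatrix G) l = true ↔ ∀ u v, G.Adj u v → n + 1 ≤ Nat.dist (f u) (f v) ∧
      Nat.dist (f u) (f v) ≤ 3 * n + 2 - (n + 1) := by
  simp only [chk, length_adjMatrix, List.all_eq_true, List.mem_range, Bool.or_eq_true,
    Bool.not_eq_true', Bool.and_eq_true, decide_eq_true_eq]
  unfold Nat.dist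
  constructor
  · intro h u v huv
    have h1 := h u u.isLt v v.isLt
    rw [hl u, hl v] at h1
    rcases h1 with h1 | h1
    · rw [(me_adj G u v).2 huv] at h1
      exact absurd h1 (by simp)
    · exact h1
  · intro h i hi j hj
    have hi' := hl ⟨i, hi⟩
    have hj' := hl ⟨j, hj⟩
    simp only at hi' hj'
    rw [hi', hj']
    have hm := me_adj G ⟨i, hi⟩ ⟨j, hj⟩
    simp only at hm
    by_cases h1 : me (adjMatrix G) i j = true
    · exact Or.inr (h _ _ (hm.1 h1))
    · exact Or.inl (by simpa using h1)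

theorem iff_cert (M : List (List Bool)) : CircLtThree M ↔ ∃ w : List ℕ, Rg (M, w) = true := by
  constructor
  · rintro ⟨n, G, rfl, hc⟩
    obtain ⟨f, h1, h2⟩ := (normal G).1 ((circ_lt_iff G).1 hc)
    refine ⟨List.ofFn f, ?_⟩
    simp only [Rg, Bool.and_eq_true]
    refine ⟨(wf_iff _).2 ⟨n, G, rfl⟩, ?_, ?_, ?_⟩
    · simp [length_adjMatrix]
    · rw [List.all_eq_true]
      intro a ha
      rw [List.mem_ofFn] at ha
      obtain ⟨i, rfl⟩ := ha
      simpa [length_adjMatrix] using h1 i
    · exact (chk_iff G f _ (getD_ofFn f)).2 h2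
  · rintro ⟨w, hw⟩
    simp only [Rg, Bool.and_eq_true, decide_eq_true_eq, List.all_eq_true] at hw
    obtain ⟨h1, h2, h3, h4⟩ := hw
    obtain ⟨n, G, rfl⟩ := (wf_iff M).1 h1
    rw [length_adjMatrix] at h2
    have hl : ∀ i : Fin n, (i : ℕ) < w.length := fun i => by rw [h2]; exact i.isLt
    have hf : ∀ i : Fin n, w.getD i 0 = (fun i : Fin n => w[(i : ℕ)]'(hl i)) i := by
      intro i
      rw [List.getD_eq_getElem?_getD, List.getElem?_eq_getElem (hl i)]
      rfl
    refine ⟨n, G, rfl, (circ_lt_iff G).2 ((normal G).2 ⟨_, ?_, (chk_iff G _ w hf).1 h4⟩)⟩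
    intro v
    have := h3 _ (List.getElem_mem (hl v))
    rw [length_adjMatrix] at this
    exact this

attribute [local irreducible] me

theorem chk_poly : NPC.Poly (fun x : List (List Bool) × List ℕ => chk x.1 x.2) := by
  unfold chk
  refine all2_poly (α := List (List Bool) × List ℕ) (m := fun x => x.1.length)
    (UPoly.length (by fun_prop)) (F := fun x i j =>
      !(me x.1 i j) || (decide (x.1.length + 1 ≤
        (x.2.getD i 0 - x.2.getD j 0) + (x.2.getD j 0 - x.2.getD i 0)) &&
      decide ((x.2.getD i 0 - x.2.getD j 0) + (x.2.getD j 0 - x.2.getD i 0) ≤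
        3 * x.1.length + 2 - (x.1.length + 1)))) ?_
  fun_prop

theorem Rg_poly : NPC.Poly Rg := by
  unfold Rg
  refine NPC.Poly.and (wf_poly.comp (by fun_prop)) (NPC.Poly.and ?_ (NPC.Poly.and ?_ chk_poly))
  · have h1 : NPC.Poly (fun x : List (List Bool) × List ℕ => x.2.length) :=
      NPC.Poly.length (by fun_prop)
    have h2 : NPC.Poly (fun x : List (List Bool) × List ℕ => x.1.length) :=
      NPC.Poly.length (by fun_prop)
    exact NPC.Poly.dec_eq h1 h2
  · refine NPC.Poly.all (l := fun x : List (List Bool) × List ℕ => x.2)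
      (p := fun x a => decide (a < 3 * x.1.length + 2)) (by fun_prop) ?_
    have h2 : NPC.Poly (fun x : (List (List Bool) × List ℕ) × ℕ => x.1.1.length) :=
      NPC.Poly.length (by fun_prop)
    fun_prop

/-- certificates are short -/
theorem Rg_short {M : List (List Bool)} {w : List ℕ} (h : Rg (M, w) = true) :
    sz w ≤ (12 * Polynomial.X ^ 2 + 20 * Polynomial.X + 20 : Polynomial ℕ).eval (sz M) := by
  simp only [Rg, Bool.and_eq_true, decide_eq_true_eq, List.all_eq_true] at h
  obtain ⟨_, h4, hlt, _⟩ := h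
  have hsz : ∀ a ∈ w, sz a ≤ 4 * (3 * M.length + 2) + 1 := by
    intro a ha
    have h1 := sz_nat_le a
    have h2 := Poly.size_le_self a
    have h3 := hlt a ha
    omega
  have h5 := sz_le_length_mul w _ hsz
  have h1 : M.length ≤ sz M := (length_lt_sz M).le
  simp only [Polynomial.eval_add, Polynomial.eval_mul, Polynomial.eval_pow, Polynomial.eval_X,
    Polynomial.eval_ofNat]
  rw [h4] at h5
  nlinarith

/-- The problem is in `NP`. -/
theorem inNPP_circ : InNPP CircLtThree := by
  refine inNPP_of (R := Rg) Rg_poly (12 * Polynomial.X ^ 2 + 20 * Polynomial.X + 20) ?_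
  intro M
  rw [iff_cert]
  exact exists_congr fun w => ⟨fun h => ⟨Rg_short h, h⟩, fun h => h.2⟩

/-- The problem is `NP`-hard, with a gap. -/
theorem hard_gap (L : Set (List Bool)) (hL : InNP L) : ∃ f : List Bool → List Bool, PolyTime f ∧
    ∀ w, ∃ (n : ℕ) (G : SimpleGraph (Fin n)), f w = bits (adjMatrix G) ∧
      (w ∈ L → circ G ≤ 8 / 3) ∧ (w ∉ L → 3 ≤ circ G) := by
  obtain ⟨f, hf, hpr, hfL⟩ := hardPr_NAEN L hL
  refine ⟨fun x => bits (adjMatrix (gr (f x))), PC.toPolyTime_bits poly_mat f hf, fun w => ?_⟩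
  refine ⟨_, gr (f w), rfl, fun hw => (correct (hpr w)).1 ((hfL w).1 hw), fun hw => ?_⟩
  by_contra hcon
  exact hw ((hfL w).2 ((correct (hpr w)).2 (not_le.1 hcon)))

theorem adjMatrix_length_inj {n m : ℕ} {G : SimpleGraph (Fin n)} {H : SimpleGraph (Fin m)}
    (h : adjMatrix G = adjMatrix H) : circ G = circ H := by
  have hnm : n = m := by rw [← length_adjMatrix G, h, length_adjMatrix]
  subst hnm
  rw [adjMatrix_inj h]

theorem hardI_circ : HardI CircLtThree := by
  refine (hardPr_NAEN.trans (Pr' := fun _ => True) poly_mat (fun _ _ => trivial)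
    (Q := CircLtThree) fun φ hs => ?_).toHardI
  constructor
  · intro h
    refine ⟨_, gr φ, rfl, ((correct hs).1 h).trans_lt (by norm_num)⟩
  · rintro ⟨n, G, hG, hc⟩
    rw [adjMatrix_length_inj hG] at hc
    exact (correct hs).2 hc

end Pool.Agent.X65.CC
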