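import Pool.Agent.X65.CC.Defs
import Pool.Agent.X130.Nae
import Pool.Agent.H671R2.OOF.NP

/-!
# The graph of a monotone not-all-equal formula

Variables are pentagons, a clause is a vertex with three pentagons around it, each of which is
joined by a prism to the pentagon of a variable.
-/

set_option autoImplicit false

namespace Pool.Agent.X65.CC

open Pool.Agent.NPC Pool.Agent.NPC.R671 Pool.Agent.X130

/-- labels of the vertices: `(0, x, i)` is vertex `i` of the pentagon of the variable `x`,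
`(1, j, k)` is vertex `k` of the gadget of clause `j` -/
abbrev Lb : Type := ℕ × ℕ × ℕ

/-- edges of a pentagon -/
def E5 : List (ℕ × ℕ) := [(0, 1), (1, 2), (2, 3), (3, 4), (4, 0)]

/-- edges of three pentagons around a vertex -/
def E0 : List (ℕ × ℕ) := [(0, 1), (0, 4), (0, 7), (1, 2), (2, 3), (3, 4), (4, 5), (5, 6), (6, 7),
  (7, 8), (8, 9), (9, 1)]

/-- the first pentagon -/
def Q1 : List (ℕ × ℕ) := [(0, 0), (1, 1), (2, 2), (3, 3), (4, 4)]

/-- the second pentagon -/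
def Q2 : List (ℕ × ℕ) := [(0, 0), (4, 1), (5, 2), (6, 3), (7, 4)]

/-- the third pentagon -/
def Q3 : List (ℕ × ℕ) := [(0, 0), (7, 1), (8, 2), (9, 3), (1, 4)]

/-- clause number `j` -/
def cla (φ : List (ℕ × ℕ × ℕ)) (j : ℕ) : ℕ × ℕ × ℕ := φ.getD j (0, 0, 0)

/-- adjacency of labels, one direction -/
def ad0 (φ : List (ℕ × ℕ × ℕ)) (a b : Lb) : Bool :=
  (decide (a.1 = 0) && (decide (b.1 = 0) && (decide (a.2.1 = b.2.1) &&
    decide ((a.2.2, b.2.2) ∈ E5)))) ||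
  ((decide (a.1 = 1) && (decide (b.1 = 1) && (decide (a.2.1 = b.2.1) &&
    decide ((a.2.2, b.2.2) ∈ E0)))) ||
  (decide (a.1 = 1) && (decide (b.1 = 0) &&
    ((decide (b.2.1 = (cla φ a.2.1).1) && decide ((a.2.2, b.2.2) ∈ Q1)) ||
    ((decide (b.2.1 = (cla φ a.2.1).2.1) && decide ((a.2.2, b.2.2) ∈ Q2)) ||
    (decide (b.2.1 = (cla φ a.2.1).2.2) && decide ((a.2.2, b.2.2) ∈ Q3)))))))

/-- adjacency of labels -/
def ad (φ : List (ℕ × ℕ × ℕ)) (a b : Lb) : Bool := ad0 φ a b || ad0 φ b a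

theorem ad_symm (φ : List (ℕ × ℕ × ℕ)) (a b : Lb) : ad φ a b = ad φ b a := by
  unfold ad
  exact Bool.or_comm _ _

theorem ad0_iff (φ : List (ℕ × ℕ × ℕ)) (a b : Lb) : ad0 φ a b = true ↔
    (a.1 = 0 ∧ b.1 = 0 ∧ a.2.1 = b.2.1 ∧ (a.2.2, b.2.2) ∈ E5) ∨
    (a.1 = 1 ∧ b.1 = 1 ∧ a.2.1 = b.2.1 ∧ (a.2.2, b.2.2) ∈ E0) ∨
    (a.1 = 1 ∧ b.1 = 0 ∧ ((b.2.1 = (cla φ a.2.1).1 ∧ (a.2.2, b.2.2) ∈ Q1) ∨
      (b.2.1 = (cla φ a.2.1).2.1 ∧ (a.2.2, b.2.2) ∈ Q2) ∨
      (b.2.1 = (cla φ a.2.1).2.2 ∧ (a.2.2, b.2.2) ∈ Q3))) := by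
  unfold ad0
  simp only [Bool.or_eq_true, Bool.and_eq_true, decide_eq_true_eq]

theorem ad0_irrefl (φ : List (ℕ × ℕ × ℕ)) (a : Lb) : ad0 φ a a = false := by
  rw [← Bool.not_eq_true, ad0_iff]
  rintro (⟨_, _, _, h⟩ | ⟨_, _, _, h⟩ | ⟨h1, h2, _⟩)
  · simp only [E5, List.mem_cons, Prod.mk.injEq, List.not_mem_nil, or_false] at h
    omega
  · simp only [E0, List.mem_cons, Prod.mk.injEq, List.not_mem_nil, or_false] at h
    omega
  · omega

theorem ad_irrefl (φ : List (ℕ × ℕ × ℕ)) (a : Lb) : ad φ a a = false := by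
  unfold ad
  rw [ad0_irrefl, Bool.or_false]

/-- the list of the labels -/
def vs (φ : List (ℕ × ℕ × ℕ)) : List Lb :=
  ((List.range (3 * φ.length)).flatMap fun x => (List.range 5).map fun i => (0, x, i)) ++
    ((List.range φ.length).flatMap fun j => (List.range 10).map fun k => (1, j, k))

theorem mem_vs0 {φ : List (ℕ × ℕ × ℕ)} {x i : ℕ} (hx : x < 3 * φ.length) (hi : i < 5) :
    (0, x, i) ∈ vs φ := by
  unfold vs
  rw [List.mem_append, List.mem_flatMap]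
  exact Or.inl ⟨x, List.mem_range.2 hx, List.mem_map.2 ⟨i, List.mem_range.2 hi, rfl⟩⟩

theorem mem_vs1 {φ : List (ℕ × ℕ × ℕ)} {j k : ℕ} (hj : j < φ.length) (hk : k < 10) :
    (1, j, k) ∈ vs φ := by
  unfold vs
  rw [List.mem_append, List.mem_flatMap, List.mem_flatMap]
  exact Or.inr ⟨j, List.mem_range.2 hj, List.mem_map.2 ⟨k, List.mem_range.2 hk, rfl⟩⟩

theorem lt_of_mem_vs {φ : List (ℕ × ℕ × ℕ)} {z : Lb} (hz : z ∈ vs φ) (h1 : z.1 = 1) :
    z.2.1 < φ.length := by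
  unfold vs at hz
  rw [List.mem_append, List.mem_flatMap, List.mem_flatMap] at hz
  rcases hz with ⟨x, hx, hz⟩ | ⟨j, hj, hz⟩
  · rw [List.mem_map] at hz
    obtain ⟨i, _, rfl⟩ := hz
    simp at h1
  · rw [List.mem_map] at hz
    obtain ⟨k, _, rfl⟩ := hz
    exact List.mem_range.1 hj

/-- the graph of the formula -/
def gr (φ : List (ℕ × ℕ × ℕ)) : SimpleGraph (Fin (vs φ).length) :=
  listGraph (vs φ) (ad φ) (ad_symm φ) (ad_irrefl φ)

/-! ### From assignments to colourings -/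

/-- the colours of the pentagon of a variable -/
def phi (b : Bool) (i : ℕ) : ℕ := (if b = true then [0, 3, 6, 1, 4] else [0, 4, 1, 6, 3]).getD i 0

/-- the colours of the gadget of a clause -/
def tab (a b c : Bool) (k : ℕ) : ℕ :=
  (if a = true then
    if b = true then [3, 6, 1, 4, 7, 2, 5, 0, 4, 1]
    else if c = true then [3, 7, 2, 5, 0, 4, 1, 6, 1, 4] else [3, 6, 1, 4, 0, 5, 2, 7, 4, 1]
  else
    if b = true then
      if c = true then [3, 0, 4, 1, 6, 1, 4, 7, 2, 5] else [3, 7, 4, 1, 6, 1, 4, 0, 5, 2]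
    else [3, 0, 5, 2, 7, 4, 1, 6, 1, 4]).getD k 0

/-- the colouring -/
def colr (φ : List (ℕ × ℕ × ℕ)) (τ : ℕ → Bool) (z : Lb) : ℕ :=
  if z.1 = 0 then phi (τ z.2.1) z.2.2 else
    tab (τ (cla φ z.2.1).1) (τ (cla φ z.2.1).2.1) (τ (cla φ z.2.1).2.2) z.2.2

theorem phi_lt (b : Bool) (i : ℕ) : phi b i < 8 := by
  unfold phi
  by_cases hi : i < 5
  · interval_cases i <;> cases b <;> decide
  · rw [List.getD_eq_default _ _ (by split_ifs <;> simp <;> omega)]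
    norm_num

theorem tab_lt (a b c : Bool) (k : ℕ) : tab a b c k < 8 := by
  unfold tab
  by_cases hk : k < 10
  · interval_cases k <;> cases a <;> cases b <;> cases c <;> decide
  · rw [List.getD_eq_default _ _ (by split_ifs <;> simp <;> omega)]
    norm_num

theorem colr_lt (φ : List (ℕ × ℕ × ℕ)) (τ : ℕ → Bool) (z : Lb) : colr φ τ z < 8 := by
  unfold colr
  split_ifs
  · exact phi_lt _ _
  · exact tab_lt _ _ _ _

theorem fin5 : ∀ b : Bool, ∀ e ∈ E5, 3 ≤ Nat.dist (phi b e.1) (phi b e.2) ∧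
    Nat.dist (phi b e.1) (phi b e.2) ≤ 5 := by decide

theorem fin0 : ∀ a b c : Bool, ¬ (a = b ∧ b = c) → ∀ e ∈ E0,
    3 ≤ Nat.dist (tab a b c e.1) (tab a b c e.2) ∧
    Nat.dist (tab a b c e.1) (tab a b c e.2) ≤ 5 := by decide

theorem fin1 : ∀ a b c : Bool, ¬ (a = b ∧ b = c) → ∀ e ∈ Q1,
    3 ≤ Nat.dist (tab a b c e.1) (phi a e.2) ∧ Nat.dist (tab a b c e.1) (phi a e.2) ≤ 5 := by
  decide

theorem fin2 : ∀ a b c : Bool, ¬ (a = b ∧ b = c) → ∀ e ∈ Q2,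
    3 ≤ Nat.dist (tab a b c e.1) (phi b e.2) ∧ Nat.dist (tab a b c e.1) (phi b e.2) ≤ 5 := by
  decide

theorem fin3 : ∀ a b c : Bool, ¬ (a = b ∧ b = c) → ∀ e ∈ Q3,
    3 ≤ Nat.dist (tab a b c e.1) (phi c e.2) ∧ Nat.dist (tab a b c e.1) (phi c e.2) ≤ 5 := by
  decide

theorem colr_ad0 {φ : List (ℕ × ℕ × ℕ)} {τ : ℕ → Bool}
    (hτ : ∀ t ∈ φ, ¬ (τ t.1 = τ t.2.1 ∧ τ t.2.1 = τ t.2.2)) {a b : Lb} (ha : a ∈ vs φ)
    (h : ad0 φ a b = true) :
    3 ≤ Nat.dist (colr φ τ a) (colr φ τ b) ∧ Nat.dist (colr φ τ a) (colr φ τ b) ≤ 5 := by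
  rw [ad0_iff] at h
  obtain ⟨a1, a2, a3⟩ := a
  obtain ⟨b1, b2, b3⟩ := b
  simp only at h
  have hcl : a1 = 1 → cla φ a2 ∈ φ := by
    intro h1
    have h2 := lt_of_mem_vs ha h1
    simp only at h2
    unfold cla
    rw [List.getD_eq_getElem _ _ h2]
    exact List.getElem_mem h2
  rcases h with ⟨rfl, rfl, rfl, h⟩ | ⟨rfl, rfl, rfl, h⟩ | ⟨rfl, rfl, h⟩
  · exact fin5 _ _ h
  · exact fin0 _ _ _ (hτ _ (hcl rfl)) _ h
  · rcases h with ⟨rfl, h⟩ | ⟨rfl, h⟩ | ⟨rfl, h⟩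
    · exact fin1 _ _ _ (hτ _ (hcl rfl)) _ h
    · exact fin2 _ _ _ (hτ _ (hcl rfl)) _ h
    · exact fin3 _ _ _ (hτ _ (hcl rfl)) _ h

theorem colouring_of_nae {φ : List (ℕ × ℕ × ℕ)} (h : NAEN φ) :
    ∃ c : Fin (vs φ).length → ℕ, IsPQ (gr φ) 8 3 c := by
  obtain ⟨τ, hτ⟩ := h
  refine ⟨fun i => colr φ τ (vs φ)[i], fun v => colr_lt _ _ _, ?_⟩
  intro u v huv
  have h1 : ad φ (vs φ)[u] (vs φ)[v] = true := huv
  unfold ad at h1
  rw [Bool.or_eq_true] at h1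
  rcases h1 with h1 | h1
  · exact colr_ad0 hτ (List.getElem_mem _) h1
  · have h2 := colr_ad0 hτ (List.getElem_mem _) h1
    rw [Nat.dist_comm] at h2
    exact h2

/-! ### From colourings to assignments -/

theorem labels_of_colouring {φ : List (ℕ × ℕ × ℕ)} {p q : ℕ} {c : Fin (vs φ).length → ℕ}
    (hc : IsPQ (gr φ) p q c) : ∃ F : Lb → ℕ, ∀ a ∈ vs φ, ∀ b ∈ vs φ, ad0 φ a b = true →
      Gd p q (F a) (F b) := by
  have h1 : ∀ z ∈ vs φ, ∃ i : Fin (vs φ).length, (vs φ)[i] = z := by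
    intro z hz
    obtain ⟨i, hi, h⟩ := List.getElem_of_mem hz
    exact ⟨⟨i, hi⟩, h⟩
  classical
  refine ⟨fun z => if hz : z ∈ vs φ then c (h1 z hz).choose else 0, ?_⟩
  intro a ha b hb hab
  simp only [dif_pos ha, dif_pos hb]
  have ea := (h1 a ha).choose_spec
  have eb := (h1 b hb).choose_spec
  have hadj : (gr φ).Adj (h1 a ha).choose (h1 b hb).choose := by
    change ad φ (vs φ)[(h1 a ha).choose] (vs φ)[(h1 b hb).choose] = true
    rw [ea, eb]
    unfold ad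
    rw [hab, Bool.true_or]
  exact ⟨hc.1 _, hc.1 _, hc.2 _ _ hadj⟩

theorem nae_of_labels {φ : List (ℕ × ℕ × ℕ)} (hs : SmallN φ) {p q : ℕ} (hq : 1 ≤ q)
    (h3 : p < 3 * q) {F : Lb → ℕ} (hF : ∀ a ∈ vs φ, ∀ b ∈ vs φ, ad0 φ a b = true →
      Gd p q (F a) (F b)) : NAEN φ := by
  refine ⟨fun x => decide (w5 (F (0, x, 0)) (F (0, x, 1)) (F (0, x, 2)) (F (0, x, 3))
    (F (0, x, 4)) = 3), ?_⟩
  intro t ht
  obtain ⟨j, hj, rfl⟩ := List.getElem_of_mem ht
  have hcl : cla φ j = φ[j] := by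
    unfold cla
    rw [List.getD_eq_getElem _ _ hj]
  obtain ⟨l1, l2, l3⟩ := hs _ ht
  have pent : ∀ x, x < 3 * φ.length → ∀ i k, (i, k) ∈ E5 → i < 5 → k < 5 →
      Gd p q (F (0, x, i)) (F (0, x, k)) := by
    intro x hx i k hik hi hk
    exact hF _ (mem_vs0 hx hi) _ (mem_vs0 hx hk) ((ad0_iff _ _ _).2 (Or.inl ⟨rfl, rfl, rfl, hik⟩))
  have inn : ∀ i k, (i, k) ∈ E0 → i < 10 → k < 10 → Gd p q (F (1, j, i)) (F (1, j, k)) := by
    intro i k hik hi hk
    exact hF _ (mem_vs1 hj hi) _ (mem_vs1 hj hk)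
      ((ad0_iff _ _ _).2 (Or.inr (Or.inl ⟨rfl, rfl, rfl, hik⟩)))
  have pr1 : ∀ i k, (i, k) ∈ Q1 → i < 10 → k < 5 →
      Gd p q (F (1, j, i)) (F (0, φ[j].1, k)) := by
    intro i k hik hi hk
    refine hF _ (mem_vs1 hj hi) _ (mem_vs0 l1 hk) ((ad0_iff _ _ _).2
      (Or.inr (Or.inr ⟨rfl, rfl, Or.inl ⟨?_, hik⟩⟩)))
    simp only [hcl]
  have pr2 : ∀ i k, (i, k) ∈ Q2 → i < 10 → k < 5 →
      Gd p q (F (1, j, i)) (F (0, φ[j].2.1, k)) := by
    intro i k hik hi hk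
    refine hF _ (mem_vs1 hj hi) _ (mem_vs0 l2 hk) ((ad0_iff _ _ _).2
      (Or.inr (Or.inr ⟨rfl, rfl, Or.inr (Or.inl ⟨?_, hik⟩)⟩)))
    simp only [hcl]
  have pr3 : ∀ i k, (i, k) ∈ Q3 → i < 10 → k < 5 →
      Gd p q (F (1, j, i)) (F (0, φ[j].2.2, k)) := by
    intro i k hik hi hk
    refine hF _ (mem_vs1 hj hi) _ (mem_vs0 l3 hk) ((ad0_iff _ _ _).2
      (Or.inr (Or.inr ⟨rfl, rfl, Or.inr (Or.inr ⟨?_, hik⟩)⟩)))
    simp only [hcl]
  have i01 := inn 0 1 (by decide) (by decide) (by decide)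
  have i04 := inn 0 4 (by decide) (by decide) (by decide)
  have i07 := inn 0 7 (by decide) (by decide) (by decide)
  have i12 := inn 1 2 (by decide) (by decide) (by decide)
  have i23 := inn 2 3 (by decide) (by decide) (by decide)
  have i34 := inn 3 4 (by decide) (by decide) (by decide)
  have i45 := inn 4 5 (by decide) (by decide) (by decide)
  have i56 := inn 5 6 (by decide) (by decide) (by decide)
  have i67 := inn 6 7 (by decide) (by decide) (by decide)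
  have i78 := inn 7 8 (by decide) (by decide) (by decide)
  have i89 := inn 8 9 (by decide) (by decide) (by decide)
  have i91 := inn 9 1 (by decide) (by decide) (by decide)
  have pn : ∀ x, x < 3 * φ.length → Gd p q (F (0, x, 0)) (F (0, x, 1)) ∧
      Gd p q (F (0, x, 1)) (F (0, x, 2)) ∧ Gd p q (F (0, x, 2)) (F (0, x, 3)) ∧
      Gd p q (F (0, x, 3)) (F (0, x, 4)) ∧ Gd p q (F (0, x, 4)) (F (0, x, 0)) := fun x hx =>
    ⟨pent x hx 0 1 (by decide) (by decide) (by decide),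
      pent x hx 1 2 (by decide) (by decide) (by decide),
      pent x hx 2 3 (by decide) (by decide) (by decide),
      pent x hx 3 4 (by decide) (by decide) (by decide),
      pent x hx 4 0 (by decide) (by decide) (by decide)⟩
  have e1 := prism hq h3 i01 i12 i23 i34 i04.symm (pn _ l1).1 (pn _ l1).2.1 (pn _ l1).2.2.1
    (pn _ l1).2.2.2.1 (pn _ l1).2.2.2.2
    (pr1 0 0 (by decide) (by decide) (by decide)) (pr1 1 1 (by decide) (by decide) (by decide))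
    (pr1 2 2 (by decide) (by decide) (by decide)) (pr1 3 3 (by decide) (by decide) (by decide))
    (pr1 4 4 (by decide) (by decide) (by decide))
  have e2 := prism hq h3 i04 i45 i56 i67 i07.symm (pn _ l2).1 (pn _ l2).2.1 (pn _ l2).2.2.1
    (pn _ l2).2.2.2.1 (pn _ l2).2.2.2.2
    (pr2 0 0 (by decide) (by decide) (by decide)) (pr2 4 1 (by decide) (by decide) (by decide))
    (pr2 5 2 (by decide) (by decide) (by decide)) (pr2 6 3 (by decide) (by decide) (by decide))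
    (pr2 7 4 (by decide) (by decide) (by decide))
  have e3 := prism hq h3 i07 i78 i89 i91 i01.symm (pn _ l3).1 (pn _ l3).2.1 (pn _ l3).2.2.1
    (pn _ l3).2.2.2.1 (pn _ l3).2.2.2.2
    (pr3 0 0 (by decide) (by decide) (by decide)) (pr3 7 1 (by decide) (by decide) (by decide))
    (pr3 8 2 (by decide) (by decide) (by decide)) (pr3 9 3 (by decide) (by decide) (by decide))
    (pr3 1 4 (by decide) (by decide) (by decide))
  have hthree := three hq h3 i01 i04 i07 i12 i23 i34 i45 i56 i67 i78 i89 i91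
  rw [e1, e2, e3] at hthree
  have c1 := cyc5 hq h3 (pn _ l1).1 (pn _ l1).2.1 (pn _ l1).2.2.1 (pn _ l1).2.2.2.1
    (pn _ l1).2.2.2.2
  have c2 := cyc5 hq h3 (pn _ l2).1 (pn _ l2).2.1 (pn _ l2).2.2.1 (pn _ l2).2.2.2.1
    (pn _ l2).2.2.2.2
  have c3 := cyc5 hq h3 (pn _ l3).1 (pn _ l3).2.1 (pn _ l3).2.2.1 (pn _ l3).2.2.2.1
    (pn _ l3).2.2.2.2
  rintro ⟨d1, d2⟩
  apply hthree
  rw [decide_eq_decide] at d1 d2
  unfold w5 at d1 d2 ⊢
  constructor
  · rcases c1 with c1 | c1 <;> rcases c2 with c2 | c2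
    · rw [c1, c2]
    · rw [c1, c2] at d1
      simp at d1
    · rw [c1, c2] at d1
      simp at d1
    · rw [c1, c2]
  · rcases c2 with c2 | c2 <;> rcases c3 with c3 | c3
    · rw [c2, c3]
    · rw [c2, c3] at d2
      simp at d2
    · rw [c2, c3] at d2
      simp at d2
    · rw [c2, c3]

/-- **The reduction is correct**, with a gap: satisfiable formulas give graphs with circular
chromatic number at most `8/3`, unsatisfiable ones at least `3`. -/
theorem correct {φ : List (ℕ × ℕ × ℕ)} (hs : SmallN φ) :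
    (NAEN φ → circ (gr φ) ≤ 8 / 3) ∧ (circ (gr φ) < 3 → NAEN φ) := by
  constructor
  · intro h
    obtain ⟨c, hc⟩ := colouring_of_nae h
    have := circ_le (by norm_num) (by norm_num) hc
    exact_mod_cast this
  · intro h
    obtain ⟨p, q, hq, _, h3, c, hc⟩ := (circ_lt_iff _).1 h
    obtain ⟨F, hF⟩ := labels_of_colouring hc
    exact nae_of_labels hs hq h3 hF

end Pool.Agent.X65.CC
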